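import Pool.Agent.Helper78.OE.GoalsC1

/-!
Packet OE-LAB (MP_fc0446_an): probabilities of the edge labels.
-/

open MeasureTheory Pool.Agent.Helper73.OE Pool.Agent.Helper78.OE
open scoped ENNReal

namespace Pool.Agent.Helper8.OE

/-- The small first coordinates. -/
def SQ (ε : ℝ) : Set unitInterval := {a | (a : ℝ) ^ 2 ≤ ε}

theorem measurableSet_SQ (ε : ℝ) : MeasurableSet (SQ ε) := by
  unfold SQ
  exact measurableSet_le (by fun_prop) (by fun_prop)

theorem vol_SQ {ε : ℝ} (h0 : 0 ≤ ε) (h1 : ε ≤ 1) :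
    (volume : Measure unitInterval) (SQ ε) = ENNReal.ofReal (Real.sqrt ε) := by
  rw [unitInterval.volume_apply]
  have himg : Subtype.val '' (SQ ε) = Set.Icc 0 (Real.sqrt ε) := by
    ext a
    constructor
    · rintro ⟨x, hx, rfl⟩
      have hx' : (x : ℝ) ^ 2 ≤ ε := hx
      exact ⟨x.2.1, Real.le_sqrt_of_sq_le hx'⟩
    · rintro ⟨ha0, ha1⟩
      have hs : Real.sqrt ε ≤ 1 := by
        have h3 := Real.sqrt_le_sqrt h1
        rwa [Real.sqrt_one] at h3
      refine ⟨⟨a, ha0, ha1.trans hs⟩, ?_, rfl⟩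
      show a ^ 2 ≤ ε
      have h2 : a ^ 2 ≤ (Real.sqrt ε) ^ 2 := pow_le_pow_left₀ ha0 ha1 2
      rw [Real.sq_sqrt h0] at h2
      exact h2
  rw [himg, Real.volume_Icc, sub_zero]

/-- The closed labels. -/
def CL (ε : ℝ) : Set ((unitInterval × unitInterval) × (unitInterval × unitInterval)) :=
  {x | (x.1.1 : ℝ) ^ 2 ≤ ε ∧ (x.2.1 : ℝ) ^ 2 ≤ ε}

theorem CL_eq (ε : ℝ) : CL ε = (SQ ε ×ˢ Set.univ) ×ˢ (SQ ε ×ˢ Set.univ) := by
  ext x
  constructor
  · rintro ⟨h1, h2⟩
    exact ⟨⟨h1, trivial⟩, ⟨h2, trivial⟩⟩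
  · rintro ⟨⟨h1, _⟩, ⟨h2, _⟩⟩
    exact ⟨h1, h2⟩

theorem measurableSet_CL (ε : ℝ) : MeasurableSet (CL ε) := by
  rw [CL_eq]
  exact ((measurableSet_SQ ε).prod MeasurableSet.univ).prod
    ((measurableSet_SQ ε).prod MeasurableSet.univ)

theorem vol_CL {ε : ℝ} (h0 : 0 ≤ ε) (h1 : ε ≤ 1) :
    (volume : Measure ((unitInterval × unitInterval) × (unitInterval × unitInterval))) (CL ε)
      = ENNReal.ofReal ε := by
  rw [CL_eq, Measure.volume_eq_prod, Measure.prod_prod, Measure.volume_eq_prod,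
    Measure.prod_prod, vol_SQ h0 h1]
  simp only [measure_univ, mul_one]
  rw [← ENNReal.ofReal_mul (Real.sqrt_nonneg ε), Real.mul_self_sqrt h0]

theorem lint_ind {P : (unitInterval × unitInterval) × (unitInterval × unitInterval) → Prop}
    (A : Set ((unitInterval × unitInterval) × (unitInterval × unitInterval)))
    (hA : MeasurableSet A) (h : ∀ x, P x ↔ x ∈ A) :
    ∫⁻ x : (unitInterval × unitInterval) × (unitInterval × unitInterval), ind (P x)
      = volume A := by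
  classical
  rw [← lintegral_indicator_one hA]
  refine lintegral_congr fun x => ?_
  by_cases hx : x ∈ A
  · rw [Set.indicator_of_mem hx, ind_true ((h x).2 hx)]
    rfl
  · rw [Set.indicator_of_notMem hx]
    unfold ind
    rw [if_neg]
    intro hp
    exact hx ((h x).1 hp)

theorem lab : LAB := by
  intro ε ε' h0 hle h1
  have hε : 0 ≤ ε := h0.trans hle
  constructor
  · refine (lint_ind (CL ε)ᶜ (measurableSet_CL ε).compl (fun x => Iff.rfl)).trans ?_
    rw [prob_compl_eq_one_sub (measurableSet_CL ε), vol_CL hε h1, ← ENNReal.ofReal_one,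
      ← ENNReal.ofReal_sub 1 hε]
  · refine (lint_ind (CL ε \ CL ε') ((measurableSet_CL ε).diff (measurableSet_CL ε'))
        (fun x => Iff.rfl)).trans ?_
    rw [measure_sdiff _ (measurableSet_CL ε').nullMeasurableSet (measure_ne_top _ _),
      vol_CL hε h1, vol_CL h0 (hle.trans h1), ← ENNReal.ofReal_sub ε h0]
    rintro x ⟨hx1, hx2⟩
    exact ⟨hx1.trans hle, hx2.trans hle⟩

end Pool.Agent.Helper8.OE
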